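import Pool.Agent.Helper98.TA.Stmts
import Pool.Agent.Helper29.TWR.HIL

/-!
The functions with the property TV form a closed subspace (sheet TA, row TCL).
-/

open MeasureTheory Filter Topology Finset
open scoped ComplexConjugate

namespace Pool.Agent.Helper46.TA

open Pool.Agent.Helper98.TW
open Pool.Agent.Helper98.TA
open Pool.Agent.Helper29.TWR

section

variable {Ω : Type} [m0 : MeasurableSpace Ω] {μ : Measure Ω} {D : SA Ω} {G G' : Ω → ℂ}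

/-- the square of the distance to the mean -/
noncomputable def NN (μ : Measure Ω) (D : SA Ω) (G : Ω → ℂ) : ℝ :=
  ∫ x, ‖(μ[G|D]) x - ∫ y, G y ∂μ‖ ^ 2 ∂μ

theorem nn_nonneg : 0 ≤ NN μ D G := integral_nonneg fun x => by positivity

theorem nn_congr (h : G =ᵐ[μ] G') : NN μ D G = NN μ D G' := by
  have h1 : μ[G|D] =ᵐ[μ] μ[G'|D] := condExp_congr_ae h
  have h2 : ∫ y, G y ∂μ = ∫ y, G' y ∂μ := integral_congr_ae h
  unfold NN
  rw [h2]
  refine integral_congr_ae ?_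
  filter_upwards [h1] with x hx
  rw [hx]

theorem sq_norm_add_le (a b : ℂ) : ‖a + b‖ ^ 2 ≤ 2 * ‖a‖ ^ 2 + 2 * ‖b‖ ^ 2 := by
  have h1 := norm_add_le a b
  have h2 : ‖a + b‖ ^ 2 ≤ (‖a‖ + ‖b‖) ^ 2 := pow_le_pow_left₀ (norm_nonneg _) h1 2
  nlinarith [sq_nonneg (‖a‖ - ‖b‖)]

theorem nn_const (hD : Lm D) [IsProbabilityMeasure μ] (c : ℂ) : NN μ D (fun _ => c) = 0 := by
  unfold NN
  have h1 : μ[fun _ : Ω => c|D] = fun _ => c := condExp_const hD c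
  rw [h1]
  simp

theorem nn_smul (c : ℂ) : NN μ D (fun x => c * G x) = ‖c‖ ^ 2 * NN μ D G := by
  have h1 : μ[fun x => c * G x|D] =ᵐ[μ] fun x => c * (μ[G|D]) x := by
    have := condExp_smul (μ := μ) c G D
    filter_upwards [this] with x hx
    simpa [Pi.smul_def, smul_eq_mul] using hx
  have h2 : ∫ y, c * G y ∂μ = c * ∫ y, G y ∂μ := integral_const_mul c G
  unfold NN
  rw [h2]
  have h3 := integral_const_mul (μ := μ) (‖c‖ ^ 2) (fun x => ‖(μ[G|D]) x - ∫ y, G y ∂μ‖ ^ 2)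
  rw [← h3]
  refine integral_congr_ae ?_
  filter_upwards [h1] with x hx
  rw [hx, ← mul_sub, norm_mul, mul_pow]

variable [IsProbabilityMeasure μ]

theorem memLp_dist (h : MemLp G 2 μ) : MemLp (fun x => (μ[G|D]) x - ∫ y, G y ∂μ) 2 μ :=
  (memLp_ce h).sub (memLp_const _)

theorem nn_add_le (h : MemLp G 2 μ) (h' : MemLp G' 2 μ) :
    NN μ D (fun x => G x + G' x) ≤ 2 * NN μ D G + 2 * NN μ D G' := by
  have h1 : μ[fun x => G x + G' x|D] =ᵐ[μ] fun x => (μ[G|D]) x + (μ[G'|D]) x :=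
    ce_add (int2 h) (int2 h')
  have h2 : ∫ y, (G y + G' y) ∂μ = ∫ y, G y ∂μ + ∫ y, G' y ∂μ := integral_add (int2 h) (int2 h')
  have i1 := (int_sq (memLp_dist (D := D) h)).const_mul 2
  have i2 := (int_sq (memLp_dist (D := D) h')).const_mul 2
  unfold NN
  rw [h2, ← integral_const_mul, ← integral_const_mul, ← integral_add i1 i2]
  refine integral_mono_ae ?_ (i1.add i2) ?_
  · have h3 : MemLp (fun x => ((μ[G|D]) x - ∫ y, G y ∂μ) + ((μ[G'|D]) x - ∫ y, G' y ∂μ)) 2 μ :=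
      (memLp_dist h).add (memLp_dist h')
    refine (int_sq h3).congr ?_
    filter_upwards [h1] with x hx
    rw [hx]
    congr 2
    ring
  · filter_upwards [h1] with x hx
    have e : (μ[fun x => G x + G' x|D]) x - (∫ y, G y ∂μ + ∫ y, G' y ∂μ) =
        ((μ[G|D]) x - ∫ y, G y ∂μ) + ((μ[G'|D]) x - ∫ y, G' y ∂μ) := by
      rw [hx]; ring
    rw [e]
    exact sq_norm_add_le _ _

/-- the conditional expectation is a contraction -/
theorem ce_sq_le (h : MemLp G 2 μ) : ∫ x, ‖(μ[G|D]) x‖ ^ 2 ∂μ ≤ ∫ x, ‖G x‖ ^ 2 ∂μ := by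
  rw [← nsq' h, ← nsq' (memLp_ce (𝒜 := D) h)]
  refine pow_le_pow_left₀ (norm_nonneg _) ?_ 2
  rw [Lp.norm_toLp, Lp.norm_toLp]
  exact ENNReal.toReal_mono h.2.ne (eLpNorm_condExp_le_eLpNorm G one_le_two)

theorem mean_sq_le (h : MemLp G 2 μ) : ‖∫ y, G y ∂μ‖ ^ 2 ≤ ∫ x, ‖G x‖ ^ 2 ∂μ := by
  have h1 := ce_sq_le (D := bo) h
  have h2 : μ[G|bo] = fun _ => ∫ y, G y ∂μ := by
    have := condExp_bot (μ := μ) G
    exact this
  rw [h2] at h1
  simpa using h1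

theorem nn_le (h : MemLp G 2 μ) : NN μ D G ≤ 4 * ∫ x, ‖G x‖ ^ 2 ∂μ := by
  have i1 := (int_sq (memLp_ce (𝒜 := D) h)).const_mul 2
  have i2 : Integrable (fun _ : Ω => 2 * ‖∫ y, G y ∂μ‖ ^ 2) μ := integrable_const _
  have h1 : NN μ D G ≤ ∫ x, (2 * ‖(μ[G|D]) x‖ ^ 2 + 2 * ‖∫ y, G y ∂μ‖ ^ 2) ∂μ := by
    unfold NN
    refine integral_mono_ae (int_sq (memLp_dist h)) (i1.add i2) ?_
    filter_upwards with x
    have := sq_norm_add_le ((μ[G|D]) x) (-∫ y, G y ∂μ)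
    rw [norm_neg, ← sub_eq_add_neg] at this
    exact this
  rw [integral_add i1 i2, integral_const_mul] at h1
  have h2 : ∫ _ : Ω, 2 * ‖∫ y, G y ∂μ‖ ^ 2 ∂μ = 2 * ‖∫ y, G y ∂μ‖ ^ 2 := by simp
  rw [h2] at h1
  have h3 := ce_sq_le (D := D) h
  have h4 := mean_sq_le h
  linarith

end

theorem st_TCL : Pool.Agent.Helper98.TA.ST_TCL := by
  intro Ω _ μ _ S S' hS
  refine ⟨fun G G' h hGG ε hε => ?_, fun G G' hG hG' h h' ε hε => ?_, fun c G hG h ε hε => ?_,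
    fun c ε hε => ⟨0, fun q _ _ D hD => ?_⟩, fun G hG h ε hε => ?_⟩
  · obtain ⟨q₀, hq⟩ := h ε hε
    refine ⟨q₀, fun q h1 h2 D hD => ?_⟩
    have a1 : NN μ D G ≤ ε := hq q h1 h2 D hD
    have e : NN μ D G = NN μ D G' := nn_congr hGG
    show NN μ D G' ≤ ε
    rw [← e]
    exact a1
  · obtain ⟨q₀, hq⟩ := h (ε / 4) (by positivity)
    obtain ⟨q₁, hq'⟩ := h' (ε / 4) (by positivity)
    refine ⟨max q₀ q₁, fun q h1 h2 D hD => ?_⟩
    have a1 : NN μ D G ≤ ε / 4 := hq q (le_trans (le_max_left _ _) h1) h2 D hD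
    have a2 : NN μ D G' ≤ ε / 4 := hq' q (le_trans (le_max_right _ _) h1) h2 D hD
    have a3 := nn_add_le (D := D) hG hG'
    show NN μ D (fun x => G x + G' x) ≤ ε
    linarith
  · have hpos : 0 < ‖c‖ ^ 2 + 1 := by positivity
    obtain ⟨q₀, hq⟩ := h (ε / (‖c‖ ^ 2 + 1)) (by positivity)
    refine ⟨q₀, fun q h1 h2 D hD => ?_⟩
    have a1 : NN μ D G ≤ ε / (‖c‖ ^ 2 + 1) := hq q h1 h2 D hD
    show NN μ D (fun x => c * G x) ≤ ε
    rw [nn_smul]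
    calc ‖c‖ ^ 2 * NN μ D G ≤ (‖c‖ ^ 2 + 1) * NN μ D G :=
          mul_le_mul_of_nonneg_right (by linarith) nn_nonneg
      _ ≤ (‖c‖ ^ 2 + 1) * (ε / (‖c‖ ^ 2 + 1)) := mul_le_mul_of_nonneg_left a1 hpos.le
      _ = ε := by field_simp
  · show NN μ D (fun _ => c) ≤ ε
    rw [nn_const hD.1.1]
    exact hε.le
  · obtain ⟨G', hG', hT, hle⟩ := h (ε / 16) (by positivity)
    obtain ⟨q₀, hq⟩ := hT (ε / 4) (by positivity)
    refine ⟨q₀, fun q h1 h2 D hD => ?_⟩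
    have a1 : NN μ D G' ≤ ε / 4 := hq q h1 h2 D hD
    have hsub : MemLp (fun x => G x - G' x) 2 μ := hG.sub hG'
    have a2 : NN μ D (fun x => G x - G' x) ≤ 4 * (ε / 16) :=
      (nn_le hsub).trans (mul_le_mul_of_nonneg_left hle (by norm_num))
    have a3 := nn_add_le (D := D) hG' hsub
    have a4 : (fun x => G' x + (G x - G' x)) = G := by
      funext x; ring
    rw [a4] at a3
    show NN μ D G ≤ ε
    linarith

end Pool.Agent.Helper46.TA
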