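import Pool.Agent.Helper98.TA.Stmts
import Pool.Agent.Helper98.TW.Basic

/-!
The class estimate (sheet TA, row VCL).
-/

open MeasureTheory Filter Topology Finset
open scoped ComplexConjugate

namespace Pool.Agent.Helper46.TA

open Pool.Agent.Helper98.TW
open Pool.Agent.Helper98.TA
open Pool.Agent.Helper98.GY (JY JJY)
open Pool.Agent.Helper40.TWM (St)

variable {Ω : Type} [m0 : MeasurableSpace Ω] {μ : Measure Ω} {S S' : Ω → Ω}

theorem jjy_add {κ : Measure (Ω × Ω)} [IsProbabilityMeasure κ] {p q : ℕ} (hκ : JY S μ p q κ)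
    {F F₁ F₂ : Ω → ℂ} (h1 : BF F₁) (h2 : BF F₂) (h : F =ᵐ[μ] fun x => F₁ x + F₂ x)
    (h0 : κ[fun z => F₁ z.1|B2 Ω] =ᵐ[κ] 0) : JJY κ F = JJY κ F₂ := by
  have hi : ∀ {G : Ω → ℂ}, BF G → Integrable (fun z : Ω × Ω => G z.1) κ := by
    intro G hG
    obtain ⟨B, hB⟩ := hG.2
    exact Integrable.of_bound (hG.1.comp measurable_fst).aestronglyMeasurable B
      (Eventually.of_forall fun z => hB z.1)
  have hae : (fun z : Ω × Ω => F z.1) =ᵐ[κ] (fun z => F₁ z.1) + fun z => F₂ z.1 := by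
    have : ∀ᵐ x ∂(κ.map Prod.fst), F x = F₁ x + F₂ x := by rw [hκ.fst]; exact h
    exact ae_of_ae_map measurable_fst.aemeasurable this
  have hc : κ[fun z => F z.1|B2 Ω] =ᵐ[κ] κ[fun z => F₂ z.1|B2 Ω] := by
    have e1 : κ[fun z => F z.1|B2 Ω] =ᵐ[κ] κ[(fun z => F₁ z.1) + fun z => F₂ z.1|B2 Ω] :=
      condExp_congr_ae hae
    have e2 := condExp_add (hi h1) (hi h2) (B2 Ω)
    filter_upwards [e1, e2, h0] with z a1 a2 a3
    rw [a1, a2, Pi.add_apply, a3, Pi.zero_apply, zero_add]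
  unfold JJY
  refine integral_congr_ae ?_
  filter_upwards [hc] with z hz
  have hz' : (κ[fun z => F z.1|MeasurableSpace.comap Prod.snd inferInstance]) z =
    (κ[fun z => F₂ z.1|MeasurableSpace.comap Prod.snd inferInstance]) z := hz
  simp only [hz']

theorem st_VCL (hsm : ST_HSM) (vc1 : ST_VC1) (vc2 : ST_VC2) (bmt : ST_BMT) : ST_VCL := by
  intro Ω _ μ _ S S' E l hSt hE hAb hVp ε hε
  have hδ : (0 : ℝ) < (ε / 2) ^ 2 := by positivity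
  obtain ⟨q₀, hq₀⟩ := hVp _ hδ
  obtain ⟨n, hn⟩ := exists_nat_ge ((2 / ε) ^ 2)
  have hsys : Sys μ S S' := by simpa using hSt.sys 1
  refine ⟨max q₀ (n ^ 2 ^ l + 1), fun q hq hqp p hp hpq κ hκ D hD h F hh hinc hF hFh horth => ?_⟩
  haveI := hκ.prob
  have hq1 : q₀ ≤ q := le_trans (le_max_left _ _) hq
  have hq2 : n ^ 2 ^ l < q := Nat.lt_of_succ_le (le_trans (le_max_right _ _) hq)
  obtain ⟨F₁, F₂, b1, b2, hsum, hF2h, horth2, hle, hJ1⟩ :=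
    vc1 Ω μ S S' p q κ D E h F hSt hp.one_lt.le hqp.one_lt.le hκ hD hE hh hinc hF hFh horth
  obtain ⟨-, hmt, hia⟩ := bmt Ω μ S S' D E hsys hD.ia.1 hE.1
  have hSM := hsm Ω μ S S' p q κ D E l n hSt hp hqp hκ hD hE hAb hq2
  have key := vc2 Ω μ S S' p q κ (mt μ D E) E n ((ε / 2) ^ 2) h F₂ hSt hp.one_lt.le
    hqp.one_lt.le hκ (hia hD.ia hE) hE (fun f hf => ((hmt f).1 hf).2) hSM hδ.le
    (fun G hG hGE hG0 => hq₀ q hq1 hqp p hp hpq κ hκ D hD G hG hGE hG0) hh hinc b2 hF2h horth2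
  rw [jjy_add hκ b1 b2 hsum hJ1]
  refine key.trans ?_
  have hn1 : 1 / √((n : ℝ) + 1) ≤ ε / 2 := by
    have h1 : 2 / ε ≤ √((n : ℝ) + 1) := by
      apply Real.le_sqrt_of_sq_le
      linarith
    have h2 : 0 < 2 / ε := by positivity
    calc 1 / √((n : ℝ) + 1) ≤ 1 / (2 / ε) := one_div_le_one_div_of_le h2 h1
      _ = ε / 2 := by field_simp
  have hd1 : √((ε / 2) ^ 2) = ε / 2 := Real.sqrt_sq (by positivity)
  have h0 : 0 ≤ ∫ x, ‖F₂ x‖ ^ 2 ∂μ := integral_nonneg fun x => by positivity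
  calc (1 / √((n : ℝ) + 1) + √((ε / 2) ^ 2)) * ∫ x, ‖F₂ x‖ ^ 2 ∂μ
      ≤ ε * ∫ x, ‖F₂ x‖ ^ 2 ∂μ := by
        refine mul_le_mul_of_nonneg_right ?_ h0
        rw [hd1]
        linarith
    _ ≤ ε * ∫ x, ‖F x‖ ^ 2 ∂μ := mul_le_mul_of_nonneg_left hle hε.le

end Pool.Agent.Helper46.TA
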