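import Pool.Agent.Helper98.TA.Stmts
import Pool.Agent.Helper98.TW.Basic

/-!
The trivial algebra is saturated (sheet TA, row TER).
-/

open MeasureTheory Filter Topology Finset
open scoped ComplexConjugate

namespace Pool.Agent.Helper46.TA

open Pool.Agent.Helper98.TW
open Pool.Agent.Helper98.TA (Sa)
open Pool.Agent.Helper40.TWM (St)

variable {Ω : Type} [m0 : MeasurableSpace Ω] {μ : Measure Ω} {S S' : Ω → Ω} {ψ : Ω → ℂ}

theorem am_bo_of_inv [IsProbabilityMeasure μ] (hS : Ergodic S μ) (hψ : Measurable ψ)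
    (h : ∀ᵐ x ∂μ, ψ (S x) = ψ x) : AM μ bo ψ := by
  obtain ⟨c, hc⟩ := hS.ae_eq_const_of_ae_eq_comp_ae hψ.aestronglyMeasurable h
  exact am_bo.2 ⟨c, hc⟩

theorem inc_eq (hψ : UF μ ψ) {c : ℂ} (h : (fun x => ψ (S x) * conj (ψ x)) =ᵐ[μ] fun _ => c) :
    ∀ᵐ x ∂μ, ψ (S x) = c * ψ x := by
  filter_upwards [h, hψ.conj_mul] with x h1 h2
  rw [← h1, mul_assoc, h2, mul_one]

theorem iter_eq {c : ℂ} (hS : MeasurePreserving S μ μ) (h : ∀ᵐ x ∂μ, ψ (S x) = c * ψ x) (n : ℕ) :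
    ∀ᵐ x ∂μ, ψ (S^[n] x) = c ^ n * ψ x := by
  induction n with
  | zero => exact Eventually.of_forall fun x => by simp
  | succ n ih =>
    have h1 : ∀ᵐ x ∂μ, ψ (S^[n] (S x)) = c ^ n * ψ (S x) := ae_comp hS ih
    filter_upwards [h, h1] with x h2 h3
    rw [Function.iterate_succ_apply, h3, h2, pow_succ]
    ring

theorem st_TER : Pool.Agent.Helper98.TA.ST_TER := by
  intro Ω _ μ _ S S' hSt
  have hS : MeasurePreserving S μ μ := by simpa using (hSt.sys 1).mp
  refine ⟨fun ψ hψ hinc M hM hpow => ?_, fun m hm ψ hψ hinc => ?_⟩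
  · obtain ⟨c, hc⟩ := am_bo.1 hinc
    obtain ⟨d, hd⟩ := am_bo.1 hpow
    have h1 := inc_eq hψ hc
    have h2 : ∀ᵐ x ∂μ, ψ (S x) ^ M = d := ae_comp hS hd
    obtain ⟨x, hx1, hx2, hx3, hx4⟩ := (h1.and (h2.and (hd.and hψ.2))).exists
    have hcM : c ^ M = 1 := by
      have hx5 : ψ x ^ M ≠ 0 := by
        refine pow_ne_zero _ fun h0 => ?_
        rw [h0] at hx4
        simp at hx4
      have h3 : c ^ M * ψ x ^ M = 1 * ψ x ^ M := by
        rw [← mul_pow, ← hx1, hx2, one_mul]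
        exact hx3.symm
      exact mul_right_cancel₀ hx5 h3
    refine am_bo_of_inv (hSt.erg M hM) hψ.1 ?_
    filter_upwards [iter_eq hS h1 M] with x hx
    rw [hx, hcM, one_mul]
  · obtain ⟨c, hc⟩ := am_bo.1 hinc
    have h1 := inc_eq hψ hc
    have h2 : ∀ᵐ x ∂μ, ψ (S^[m] (S x)) = c * ψ (S x) := ae_comp hS h1
    have hcn : ‖c‖ = 1 := by
      have h3 := ae_comp (hSt.sys m).mp hψ.2
      obtain ⟨x, hx1, hx2, hx3⟩ := (h1.and (h3.and hψ.2)).exists
      rw [hx1, norm_mul, hx3, mul_one] at hx2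
      exact hx2
    refine am_bo_of_inv (hSt.erg m hm)
      ((hψ.1.comp hS.measurable).mul (Complex.continuous_conj.measurable.comp hψ.1)) ?_
    filter_upwards [h1, h2] with x hx1 hx2
    have hcc : c * conj c = 1 := by
      rw [Complex.mul_conj, Complex.normSq_eq_norm_sq, hcn]
      simp
    have hcomm : S (S^[m] x) = S^[m] (S x) :=
      (Function.iterate_succ_apply' S m x).symm.trans (Function.iterate_succ_apply S m x)
    simp only [hcomm, hx1, hx2, map_mul]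
    linear_combination (ψ (S x) * conj (ψ x)) * hcc

end Pool.Agent.Helper46.TA
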